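import Pool.Agent.SCT.StmtsB

/-!
# Squad SCT, row DER: the partial derivatives of rational functions
-/

set_option autoImplicit false

namespace Pool.Agent.SCT.H19

open MvPolynomial

/-- extension of a homomorphism to the dual numbers to the fraction field -/
theorem der_ext {k A K : Type} [Field k] [CommRing A] [IsDomain A] [Algebra k A] [Field K]
    [Algebra A K] [Algebra k K] [IsScalarTower k A K] [IsFractionRing A K]
    (φ : A →ₐ[k] TrivSqZeroExt K K) (hφ : ∀ p, (φ p).fst = algebraMap A K p) :
    ∃ D : Derivation k K K, ∀ p, D (algebraMap A K p) = (φ p).snd := by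
  have hu : ∀ p : nonZeroDivisors A, IsUnit ((φ : A →+* TrivSqZeroExt K K) p) := by
    intro p
    rw [TrivSqZeroExt.isUnit_iff_isUnit_fst]
    have h : ((φ : A →+* TrivSqZeroExt K K) p).fst = algebraMap A K p := hφ p
    rw [h]
    exact IsLocalization.map_units K p
  obtain ⟨ψ, hψ1⟩ : ∃ ψ : K →+* TrivSqZeroExt K K, ∀ p, ψ (algebraMap A K p) = φ p :=
    ⟨IsLocalization.lift hu, fun p => IsLocalization.lift_eq hu p⟩
  have hψ : ∀ z, (ψ z).fst = z := by
    intro z
    obtain ⟨a, b, hb, rfl⟩ := IsFractionRing.div_surjective (A := A) z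
    have hb0 : algebraMap A K b ≠ 0 := by
      intro h
      exact (nonZeroDivisors.ne_zero hb) ((map_eq_zero_iff _ (IsFractionRing.injective A K)).1 h)
    have h1 : ψ (algebraMap A K a / algebraMap A K b) * ψ (algebraMap A K b) =
        ψ (algebraMap A K a) := by
      rw [← map_mul, div_mul_cancel₀ _ hb0]
    have h2 := congrArg TrivSqZeroExt.fst h1
    rw [TrivSqZeroExt.fst_mul, hψ1, hψ1, hφ, hφ] at h2
    exact eq_div_of_mul_eq hb0 h2
  have hk : ∀ c : k, ψ (algebraMap k K c) = TrivSqZeroExt.inl (algebraMap k K c) := by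
    intro c
    rw [IsScalarTower.algebraMap_apply k A K, hψ1, AlgHom.commutes]
    rw [← IsScalarTower.algebraMap_apply k A K]
    rfl
  refine ⟨Derivation.mk'
    { toFun := fun z => (ψ z).snd
      map_add' := fun a b => by rw [map_add, TrivSqZeroExt.snd_add]
      map_smul' := fun c a => by
        rw [Algebra.smul_def, map_mul, hk, TrivSqZeroExt.snd_mul, TrivSqZeroExt.fst_inl,
          TrivSqZeroExt.snd_inl, smul_zero, add_zero, RingHom.id_apply, smul_eq_mul,
          ← Algebra.smul_def] } ?_, ?_⟩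
  · intro a b
    show (ψ (a * b)).snd = a • (ψ b).snd + b • (ψ a).snd
    rw [map_mul, TrivSqZeroExt.snd_mul, hψ, hψ, op_smul_eq_smul]
  · intro p
    show (ψ (algebraMap A K p)).snd = (φ p).snd
    rw [hψ1]

theorem der_one (k : Type) [Field k] (n : ℕ) (j : Fin (n + 2)) :
    ∃ D : Derivation k (FT k n) (FT k n), ∀ i, D (gen k n i) = if i = j then 1 else 0 := by
  classical
  obtain ⟨D, hD⟩ := der_ext (k := k) (A := MvPolynomial (Fin (n + 2)) k) (K := FT k n)
    (aeval (fun i => (TrivSqZeroExt.inl (gen k n i) +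
      TrivSqZeroExt.inr (if i = j then 1 else 0) : TrivSqZeroExt (FT k n) (FT k n)))) (by
    intro p
    induction p using MvPolynomial.induction_on with
    | C a =>
      rw [MvPolynomial.aeval_C]
      show (algebraMap k (FT k n) a) = _
      rw [IsScalarTower.algebraMap_apply k (MvPolynomial (Fin (n + 2)) k) (FT k n)]
      rfl
    | add p q hp hq => rw [map_add, map_add, TrivSqZeroExt.fst_add, hp, hq]
    | mul_X p i hp =>
      rw [map_mul, map_mul, TrivSqZeroExt.fst_mul, hp, aeval_X, TrivSqZeroExt.fst_add,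
        TrivSqZeroExt.fst_inl, TrivSqZeroExt.fst_inr, add_zero]
      rfl)
  refine ⟨D, fun i => ?_⟩
  have h := hD (X i)
  rw [aeval_X, TrivSqZeroExt.snd_add, TrivSqZeroExt.snd_inl, TrivSqZeroExt.snd_inr, zero_add] at h
  exact h

theorem der : DerStmt := by
  intro k _ n
  choose D hD using der_one k n
  exact ⟨D, fun i j => hD j i⟩

end Pool.Agent.SCT.H19
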